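import Pool.Agent.U398.MV.Fin2b
import Pool.Agent.U858.MV2.SB

set_option autoImplicit false

/-!
# The covariance of `S(t)`, unconditionally, with a bounded error and at all shifts

Projects MV and MV2: helper398, helper460, helper671, helper256, helper139, helper747, helper780,
helper94, helper338, helper114, helper501, helper20, helper881, helper358, helper125, helper606,
helper84, helper503, helper946, helper858; library `Pool.Agent.U761.SZ` (helper761) on top of
`Pool.Agent.Q97.UM`.
-/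

namespace Pool.Agent.Results.MP_f58427_nt.CovarianceOfS

open MeasureTheory Complex

noncomputable section

/-- `S(t) = (1/π) arg ζ(1/2 + it)`: `1/π` times the integral of `Im (ζ'/ζ)(s) ds` along the segments
from `2` to `2 + it` and from `2 + it` to `1/2 + it` -/
def S (t : ℝ) : ℝ :=
  1 / Real.pi * ((∫ u in (0 : ℝ)..t, (logDeriv riemannZeta ((2 : ℂ) + u * I)).re) -
    ∫ x in (1 / 2 : ℝ)..2, (logDeriv riemannZeta ((x : ℂ) + t * I)).im)

/-- the covariance of `S(t)` and `S(t + h)` -/
theorem result : ∃ C T0 : ℝ, ∀ T : ℝ, T0 ≤ T → ∀ h : ℝ, 0 ≤ h → h ≤ T / (Real.log T) ^ 2 →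
    IntervalIntegrable (fun t => S t * S (t + h)) volume T (2 * T) ∧
    |1 / T * (∫ t in T..(2 * T), S t * S (t + h)) - 1 / (2 * Real.pi ^ 2) *
      Real.log ‖riemannZeta (1 + 1 / Real.log T + h * I)‖| ≤ C := by
  obtain ⟨C, T0, _, _, H⟩ := Pool.Agent.U398.MV.cov2 Pool.Agent.U858.MV2.t_SB
  obtain ⟨T1, _, H1⟩ := Pool.Agent.U398.MV.prod_int Pool.Agent.U858.MV2.t_SB
  refine ⟨C, max T0 T1, fun T hT h h0 h1 => ⟨H1 T ((le_max_right _ _).trans hT) h h0 h1, ?_⟩⟩
  have e : ((1 : ℂ) + 1 / Real.log T + h * I) = ((1 + 1 / Real.log T : ℝ) : ℂ) + h * I := by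
    push_cast
    ring
  rw [e]
  exact H T ((le_max_left _ _).trans hT) h h0 h1

end

end Pool.Agent.Results.MP_f58427_nt.CovarianceOfS
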