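import Pool.Agent.Q97.UM.Base5

set_option autoImplicit false

/-!
# Montgomery's theorem relative to every Dirichlet polynomial, unconditionally

Montgomery's pair correlation conjecture is equivalent to statements about the form factor of the zeros of zeta, the mean square of
`∑_ρ T^(iαz_ρ)` over the zeros `ρ = 1/2 + i z_ρ` near `t`; it is known for `0 < α < 1`, where it is asymptotically `α`, in the mean
over `t`. Here it is proved, unconditionally (all zeros on and off the line are included), that for `0 < α < 1` the form factor is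
`α` relative to EVERY Dirichlet polynomial.

Let `w` be a window: `Ω(z) = ∫ w(v) exp(ivz) dv` is close to the indicator function of `[-H, H]` (`Window`; such `w`, with Fourier
side supported in `[-δ, δ]`, exist for all `H`, with a constant `C` independent of `H`: part (1)). Let
`Z(u, t) = ∑_ρ m(ρ) exp(iu z_ρ) Ω(log T (z_ρ - t))² exp(-(z_ρ - t)²/2)`, a sum over the zeros within about `H / log T` of `t`, and let
`I(w)` be `(1/2π) ∫ Ω⁴`, which is `H/π + O(1)`. For `0 < α₀ ≤ α ≤ α₁ < 1` and small `δ`, and for all windows there is `θ > 0` such that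
for large `T`, all `N ≤ T^θ` and ALL `b_1, ..., b_N`, `B(t) = ∑ b_n n^(-1/2-it)`,
`∫ |Z(α log T, t)|² |B(t)|² dt = (α I(w) + O(ε (1 + I(w)))) T ∑ |b_n|²/n`, uniformly in `α`, over `T + 2 log T ≤ t ≤ 2T - 2 log T` (part (2)).
Part (3): integrated over `0 ≤ α ≤ λ < 1` against a Lipschitz function `R(α/λ)` the result is the one predicted by the GUE form factor
with the point mass at `α = 0`. For `B = 1` this is a local and unconditional form of Montgomery's theorem.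
-/

namespace Pool.Agent.Results.MP_f58427_nt.FormFactorEveryPolynomial

open Filter Topology MeasureTheory Complex

noncomputable section

/-- the Dirichlet polynomial with the coefficients `b_1, ..., b_N` on the critical line -/
def B (N : ℕ) (b : ℕ → ℂ) (t : ℝ) : ℂ := ∑ n ∈ Finset.Icc 1 N, b n * (n : ℂ) ^ (-(1 / 2 + t * I))

/-- `∑ |b_n|² / n`, the mean square of `B` -/
def meanSq (N : ℕ) (b : ℕ → ℂ) : ℝ := ∑ n ∈ Finset.Icc 1 N, ‖b n‖ ^ 2 / n

/-- the nontrivial zeros of zeta with ordinate in `(T + 1, 2T - 1]`, on or off the critical line -/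
def zeros (T : ℝ) : Set ℂ := {s : ℂ | riemannZeta s = 0 ∧ 0 < s.re ∧ s.re < 1 ∧ T + 1 < s.im ∧ s.im ≤ 2 * T - 1}

/-- the number `z` with `s = 1/2 + iz`; for a zero on the line it is the ordinate -/
def zc (s : ℂ) : ℂ := -I * (s - 1 / 2)

/-- the Fourier transform of `w`, at complex points -/
def Om (w : ℝ → ℝ) (z : ℂ) : ℂ := ∫ v : ℝ, (w v : ℂ) * cexp (I * (v * z))

/-- `Om w` is close to the indicator function of `[-H, H]`, with Fourier side supported in `(-δ, δ)` -/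
structure Window (δ H C : ℝ) (K : ℕ) (w : ℝ → ℝ) : Prop where
  lip : ∃ D : ℝ, ∀ x y : ℝ, |w x - w y| ≤ D * |x - y|
  even : ∀ v : ℝ, w (-v) = w v
  supp : ∀ v : ℝ, δ ≤ |v| → w v = 0
  unit : ∀ x : ℝ, (Om w x).im = 0 ∧ 0 ≤ (Om w x).re ∧ (Om w x).re ≤ 1
  near : ∀ z : ℂ, |z.re| ≤ H → ‖Om w z - 1‖ ≤ C * Real.exp (δ * |z.im|) / (1 + (H - |z.re|)) ^ K
  far : ∀ z : ℂ, H ≤ |z.re| → ‖Om w z‖ ≤ C * Real.exp (δ * |z.im|) / (1 + (|z.re| - H)) ^ K

/-- the square integral of the self-convolution of `w`, that is `(1/2π) ∫ Om w x ^ 4 dx` -/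
def I2 (w : ℝ → ℝ) : ℝ := ∫ v : ℝ, (∫ s : ℝ, w s * w (v - s)) ^ 2

/-- the weighted sum over the zeros near `t`, with multiplicity, at the frequency `u` -/
def Z (w : ℝ → ℝ) (T u t : ℝ) : ℂ := ∑ᶠ s ∈ zeros T, (analyticOrderNatAt riemannZeta s : ℂ) *
  (cexp (I * u * zc s) * Om w (Real.log T * (zc s - t)) ^ 2 * cexp (-(zc s - t) ^ 2 / 2))

lemma zeros_eq (T : ℝ) : zeros T = H370.zset riemannZeta (T + 1) (2 * T - 1) := by
  ext s
  simp only [zeros, H370.zset, Set.mem_ofPred_eq]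
  tauto

lemma Z_eq {w : ℝ → ℝ} {T : ℝ} (hT : 1 ≤ T) (u t : ℝ) : Z w T u t = Pool.Agent.Q97.UM.Zt w T u t := by
  unfold Z
  rw [zeros_eq, H370.finsum_Zf H370.good_zeta (by linarith)]
  rfl

lemma win {δ H C : ℝ} {K : ℕ} {w : ℝ → ℝ} (h : Window δ H C K w) : Pool.Agent.Q97.UM.OmW δ H C K w :=
  ⟨h.lip, h.even, h.supp, h.unit, h.near, h.far⟩

/-- **Montgomery's theorem relative to every Dirichlet polynomial.** -/
theorem result :
    (∀ (K : ℕ) (δ : ℝ), 0 < δ → δ ≤ 1 → ∃ C : ℝ, 1 ≤ C ∧ ∀ H : ℝ, 1 ≤ H →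
      ∃ w : ℝ → ℝ, Window δ H C K w ∧ (2 ≤ K → |I2 w - H / Real.pi| ≤ 4 * C ^ 4 / Real.pi)) ∧
    (∀ α₀ α₁ ε : ℝ, 0 < α₀ → α₁ < 1 → 0 < ε → ∃ δ₀ : ℝ, 0 < δ₀ ∧
      ∀ (δ H C : ℝ) (K : ℕ) (w : ℝ → ℝ), 0 < δ → δ ≤ δ₀ → 1 ≤ H → 1 ≤ C → 2 ≤ K → Window δ H C K w →
      ∃ θ T₀ : ℝ, 0 < θ ∧ ∀ T : ℝ, T₀ ≤ T → ∀ N : ℕ, (N : ℝ) ≤ T ^ θ → ∀ b : ℕ → ℂ, ∀ α : ℝ, α₀ ≤ α → α ≤ α₁ →
        |(∫ t in (T + 2 * Real.log T)..(2 * T - 2 * Real.log T), ‖Z w T (α * Real.log T) t‖ ^ 2 * ‖B N b t‖ ^ 2) -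
          α * I2 w * (T * meanSq N b)| ≤ ε * (1 + I2 w) * (T * meanSq N b)) ∧
    (∀ (R : ℝ → ℝ) (D lam ε : ℝ), (∀ x y : ℝ, |R x - R y| ≤ D * |x - y|) → 0 < lam → lam < 1 → 0 < ε → ∃ δ₀ : ℝ, 0 < δ₀ ∧
      ∀ (δ H C : ℝ) (K : ℕ) (w : ℝ → ℝ), 0 < δ → δ ≤ δ₀ → 1 ≤ H → 1 ≤ C → 2 ≤ K → Window δ H C K w →
      ∃ θ T₀ : ℝ, 0 < θ ∧ ∀ T : ℝ, T₀ ≤ T → ∀ N : ℕ, (N : ℝ) ≤ T ^ θ → ∀ b : ℕ → ℂ,
        |(2 * ∫ α in (0 : ℝ)..1, R α * ∫ t in (T + 2 * Real.log T)..(2 * T - 2 * Real.log T),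
          ‖Z w T (lam * Real.log T * α) t‖ ^ 2 * ‖B N b t‖ ^ 2) -
          (R 0 / lam + 2 * lam * ∫ α in (0 : ℝ)..1, α * R α) * I2 w * (T * meanSq N b)| ≤
          ε * (1 + I2 w) * (T * meanSq N b)) := by
  have hI2 : ∀ w : ℝ → ℝ, 0 ≤ I2 w := fun w => integral_nonneg fun v => sq_nonneg _
  have hms : ∀ (N : ℕ) (b : ℕ → ℂ), 0 ≤ meanSq N b := fun N b =>
    Finset.sum_nonneg fun n _ => by positivity
  refine ⟨?_, ?_, ?_⟩
  · intro K δ hδ hδ1
    obtain ⟨C, hC, h⟩ := Pool.Agent.Q247.UM.t_OMEX K δ hδ hδ1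
    refine ⟨C, hC, fun H hH => ?_⟩
    obtain ⟨w, hw⟩ := h H hH
    refine ⟨w, ⟨hw.lip, hw.even, hw.supp, hw.unit, hw.near, hw.far⟩, fun hK => ?_⟩
    have h1 := (Pool.Agent.Q176.UM.t_QH δ H C K w hδ hδ1 hH hC hK hw).2.2.2.2.2
    have e : I2 w = Pool.Agent.Q97.UM.I2 w := rfl
    rw [e, show Pool.Agent.Q97.UM.I2 w - H / Real.pi = (Real.pi * Pool.Agent.Q97.UM.I2 w - H) / Real.pi by
      field_simp, abs_div, abs_of_pos Real.pi_pos]
    exact div_le_div_of_nonneg_right h1 Real.pi_pos.le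
  · intro α₀ α₁ ε hα₀ hα₁ hε
    obtain ⟨C₀, hC₀, hZ⟩ := Pool.Agent.Q97.UM.b_ZU
    refine ⟨min (min (1 / 16) (ε / (4 * C₀))) (min (α₀ / 3) ((1 - α₁) / 8)), by
      have : 0 < 1 - α₁ := by linarith
      positivity, ?_⟩
    intro δ H C K w hδ hδ₀ hH hC hK hw
    have hδ1 : δ ≤ 1 / 16 := hδ₀.trans ((min_le_left _ _).trans (min_le_left _ _))
    have hδ2 : δ ≤ ε / (4 * C₀) := hδ₀.trans ((min_le_left _ _).trans (min_le_right _ _))
    have hδ3 : δ ≤ α₀ / 3 := hδ₀.trans ((min_le_right _ _).trans (min_le_left _ _))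
    have hδ4 : δ ≤ (1 - α₁) / 8 := hδ₀.trans ((min_le_right _ _).trans (min_le_right _ _))
    obtain ⟨hq1, hq2, hq3, -, -, -⟩ := Pool.Agent.Q176.UM.t_QH δ H C K w hδ (by linarith) hH hC hK (win hw)
    obtain ⟨D, hD1, hQ⟩ := Pool.Agent.Q247.UM.t_QLF δ w hδ (by linarith) hq1 hq2 hq3
    set θ : ℝ := min (min (1 / 40) ((1 - α₁) / 8)) ((ε / (4 * C₀)) ^ 2) with hθ
    have hθ0 : 0 < θ := by
      have : 0 < 1 - α₁ := by linarith
      positivity
    have hθ1 : θ ≤ 1 / 40 := (min_le_left _ _).trans (min_le_left _ _)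
    have hθ2 : θ ≤ (1 - α₁) / 8 := (min_le_left _ _).trans (min_le_right _ _)
    have hθ3 : Real.sqrt θ ≤ ε / (4 * C₀) := by
      rw [Real.sqrt_le_left (by positivity)]
      exact min_le_right _ _
    have hZ1 := hZ δ H C K w θ (ε / 4) 1 hδ hδ1 hH hC hK (win hw) hθ0 hθ1 (by positivity) one_pos le_rfl
    -- the Gaussian tail
    have htail : ∀ᶠ T : ℝ in atTop, D ^ 2 * Real.exp (-(δ * Real.log T) ^ 2) ≤ ε / 4 := by
      have h1 : Tendsto (fun T : ℝ => (δ * Real.log T) ^ 2) atTop atTop :=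
        (tendsto_pow_atTop two_ne_zero).comp (Real.tendsto_log_atTop.const_mul_atTop hδ)
      have h2 : Tendsto (fun T : ℝ => D ^ 2 * Real.exp (-(δ * Real.log T) ^ 2)) atTop (𝓝 (D ^ 2 * 0)) := by
        refine Tendsto.const_mul _ (Real.tendsto_exp_atBot.comp ?_)
        exact tendsto_neg_atTop_atBot.comp h1
      rw [mul_zero] at h2
      exact (h2.eventually (gt_mem_nhds (by positivity))).mono fun _ h => h.le
    have hev := (hZ1.and htail).and (eventually_ge_atTop (Real.exp 1))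
    rw [Filter.eventually_atTop] at hev
    obtain ⟨T₀, hT₀⟩ := hev
    refine ⟨θ, T₀, hθ0, fun T hT N hN b α hα hα' => ?_⟩
    obtain ⟨⟨h1, h2⟩, hTe⟩ := hT₀ T hT
    have hT1 : 1 ≤ T := (Real.add_one_le_exp 1).trans hTe |>.trans' (by norm_num)
    have hL : 1 ≤ Real.log T := by
      rw [Real.le_log_iff_exp_le (by linarith)]
      exact hTe
    have hu0 : 0 ≤ α * Real.log T := mul_nonneg (by linarith) (by linarith)
    have hu1 : α * Real.log T ≤ (1 - 4 * δ - 2 * θ) * Real.log T := by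
      apply mul_le_mul_of_nonneg_right _ (by linarith)
      linarith
    have h3 := h1 N hN b (α * Real.log T) hu0 hu1
    have h3δ : 3 * δ * Real.log T ≤ α * Real.log T := mul_le_mul_of_nonneg_right (by linarith) (by linarith)
    rw [if_pos h3δ, mul_div_assoc, div_self (by linarith : Real.log T ≠ 0), mul_one] at h3
    have hQL : Pool.Agent.Q97.UM.QL w (Real.log T) (α * Real.log T) ^ 2 ≤ ε / 4 := by
      have h4 := (hQ (Real.log T) hL).2.2.2.2.1 (α * Real.log T) (by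
        rw [abs_of_nonneg hu0]
        linarith [mul_nonneg hδ.le (by linarith : (0 : ℝ) ≤ Real.log T)])
      rw [abs_of_nonneg hu0] at h4
      have h5 : δ * Real.log T ≤ α * Real.log T - 2 * δ * Real.log T := by linarith
      have h6 : (δ * Real.log T) ^ 2 ≤ (α * Real.log T - 2 * δ * Real.log T) ^ 2 :=
        pow_le_pow_left₀ (by positivity) h5 2
      calc Pool.Agent.Q97.UM.QL w (Real.log T) (α * Real.log T) ^ 2
          = |Pool.Agent.Q97.UM.QL w (Real.log T) (α * Real.log T)| ^ 2 := (sq_abs _).symm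
        _ ≤ (D * Real.exp (-(α * Real.log T - 2 * δ * Real.log T) ^ 2 / 2)) ^ 2 :=
            pow_le_pow_left₀ (abs_nonneg _) h4 2
        _ = D ^ 2 * Real.exp (-(α * Real.log T - 2 * δ * Real.log T) ^ 2) := by
            rw [mul_pow, ← Real.exp_nat_mul]
            congr 2
            push_cast
            ring
        _ ≤ D ^ 2 * Real.exp (-(δ * Real.log T) ^ 2) := by
            apply mul_le_mul_of_nonneg_left _ (by positivity)
            exact Real.exp_le_exp.2 (by linarith)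
        _ ≤ ε / 4 := h2
    have e1 : meanSq N b = Pool.Agent.Q97.UM.N2 N b := rfl
    have e2 : I2 w = Pool.Agent.Q97.UM.I2 w := rfl
    have hTN : 0 ≤ T * meanSq N b := mul_nonneg (by linarith) (hms N b)
    have hI := hI2 w
    rw [← e1, ← e2] at h3
    have e3 : (∫ t in (T + 2 * Real.log T)..(2 * T - 2 * Real.log T), ‖Z w T (α * Real.log T) t‖ ^ 2 * ‖B N b t‖ ^ 2) =
        ∫ t in (T + 2 * Real.log T)..(2 * T - 2 * Real.log T),
          ‖Pool.Agent.Q97.UM.Zt w T (α * Real.log T) t‖ ^ 2 * ‖Pool.Agent.Q97.UM.dp N b t‖ ^ 2 := by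
      simp only [Z_eq hT1]
      rfl
    rw [e3]
    set J := ∫ t in (T + 2 * Real.log T)..(2 * T - 2 * Real.log T),
          ‖Pool.Agent.Q97.UM.Zt w T (α * Real.log T) t‖ ^ 2 * ‖Pool.Agent.Q97.UM.dp N b t‖ ^ 2 with hJ
    set q := Pool.Agent.Q97.UM.QL w (Real.log T) (α * Real.log T) with hq
    have hc1 : C₀ * (δ + Real.sqrt θ) ≤ ε / 2 := by
      have a1 : C₀ * δ ≤ ε / 4 := by
        rw [le_div_iff₀ (by positivity)] at hδ2
        linarith
      have a2 : C₀ * Real.sqrt θ ≤ ε / 4 := by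
        rw [le_div_iff₀ (by positivity)] at hθ3
        linarith
      linarith
    calc |J - α * I2 w * (T * meanSq N b)|
        = |(J - (q ^ 2 + α * I2 w) * T * meanSq N b) + q ^ 2 * (T * meanSq N b)| := by
          congr 1
          ring
      _ ≤ |J - (q ^ 2 + α * I2 w) * T * meanSq N b| + |q ^ 2 * (T * meanSq N b)| := abs_add_le _ _
      _ ≤ (C₀ * (δ + Real.sqrt θ) * I2 w + ε / 4) * T * meanSq N b + ε / 4 * (T * meanSq N b) := by
          refine add_le_add h3 ?_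
          rw [abs_of_nonneg (by positivity)]
          exact mul_le_mul_of_nonneg_right hQL hTN
      _ = (C₀ * (δ + Real.sqrt θ) * I2 w + ε / 2) * (T * meanSq N b) := by ring
      _ ≤ ε * (1 + I2 w) * (T * meanSq N b) := by
          apply mul_le_mul_of_nonneg_right _ hTN
          nlinarith
  · intro R D lam ε hR hlam hlam1 hε
    obtain ⟨C₁, hC₁, hP⟩ := Pool.Agent.Q97.UM.b_PAIR R D lam hR hlam hlam1
    refine ⟨min (min (1 / 16) ((ε / (4 * C₁)) ^ 2)) (min (lam / 3) ((1 - lam) / 8)), by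
      have : 0 < 1 - lam := by linarith
      positivity, ?_⟩
    intro δ H C K w hδ hδ₀ hH hC hK hw
    have hδ1 : δ ≤ 1 / 16 := hδ₀.trans ((min_le_left _ _).trans (min_le_left _ _))
    have hδ2 : δ ≤ (ε / (4 * C₁)) ^ 2 := hδ₀.trans ((min_le_left _ _).trans (min_le_right _ _))
    have hδ3 : δ ≤ lam / 3 := hδ₀.trans ((min_le_right _ _).trans (min_le_left _ _))
    have hδ4 : δ ≤ (1 - lam) / 8 := hδ₀.trans ((min_le_right _ _).trans (min_le_right _ _))
    set θ : ℝ := min (min (1 / 40) ((1 - lam) / 8)) ((ε / (4 * C₁)) ^ 2) with hθ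
    have hθ0 : 0 < θ := by
      have : 0 < 1 - lam := by linarith
      positivity
    have hθ1 : θ ≤ 1 / 40 := (min_le_left _ _).trans (min_le_left _ _)
    have hθ2 : θ ≤ (1 - lam) / 8 := (min_le_left _ _).trans (min_le_right _ _)
    have hs : ∀ x : ℝ, x ≤ (ε / (4 * C₁)) ^ 2 → C₁ * Real.sqrt x ≤ ε / 4 := by
      intro x hx
      have h1 : Real.sqrt x ≤ ε / (4 * C₁) := by
        rw [Real.sqrt_le_left (by positivity)]
        exact hx
      rw [le_div_iff₀ (by positivity)] at h1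
      linarith
    have hP1 := hP δ H C K w θ (ε / 2) hδ hδ1 (by linarith) (by linarith) hH hC hK (win hw) hθ0 hθ1 (by positivity)
    have hev := hP1.and (eventually_ge_atTop (1 : ℝ))
    rw [Filter.eventually_atTop] at hev
    obtain ⟨T₀, hT₀⟩ := hev
    refine ⟨θ, T₀, hθ0, fun T hT N hN b => ?_⟩
    obtain ⟨h1, hT1⟩ := hT₀ T hT
    have h3 := h1 N hN b
    have e1 : meanSq N b = Pool.Agent.Q97.UM.N2 N b := rfl
    have e2 : I2 w = Pool.Agent.Q97.UM.I2 w := rfl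
    have hTN : 0 ≤ T * meanSq N b := mul_nonneg (by linarith) (hms N b)
    have hI := hI2 w
    rw [← e1, ← e2] at h3
    have e3 : (∫ α in (0 : ℝ)..1, R α * ∫ t in (T + 2 * Real.log T)..(2 * T - 2 * Real.log T),
          ‖Z w T (lam * Real.log T * α) t‖ ^ 2 * ‖B N b t‖ ^ 2) =
        ∫ α in (0 : ℝ)..1, R α * ∫ t in (T + 2 * Real.log T)..(2 * T - 2 * Real.log T),
          ‖Pool.Agent.Q97.UM.Zt w T (lam * Real.log T * α) t‖ ^ 2 * ‖Pool.Agent.Q97.UM.dp N b t‖ ^ 2 := by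
      simp only [Z_eq hT1]
      rfl
    rw [e3, ← mul_assoc]
    refine h3.trans ?_
    rw [mul_assoc _ T]
    apply mul_le_mul_of_nonneg_right _ hTN
    have h4 := hs δ hδ2
    have h5 := hs θ (min_le_right _ _)
    nlinarith

end

end Pool.Agent.Results.MP_f58427_nt.FormFactorEveryPolynomial
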