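import Pool.Agent.U667.QA.FilC

/-!
# Montgomery's pair correlation conjecture and quasi-analytic one-sided bounds at large distances

No hypothesis is assumed (in particular not the Riemann hypothesis).

Let `R(T, a) = N*(T, a) / (T log T / 2π)`, and let `val a` be the integral of `1 - (sin πu / πu)²`
over `[0, a]`. Montgomery's conjecture says that `R(T, a) → val a` for all `a > 0`. Let `T → ∞` along
any countably generated filter `l` (all heights, or any sequence of heights), and let
`e(a) = (val a - liminf R(T, a))⁺` be the deficit.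

(1) The conjecture holds along `l` if and only if for some `A` the moments of the deficit satisfy
Carleman's condition `∑_{k ≥ 1} (∫_A^∞ a^{2k} e(a) da)^{-1/(2k)} = ∞`. So a violation of the
conjecture forces a deficit outside of the quasi-analytic class at large distances.

(2) If almost all zeros are simple and on the critical line, the same holds for the upper half of the
conjecture, and for the bounds where at almost each large distance only one of the two halves is
given, with an error function in the Carleman class: the lower half for `a` with an even number of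
points of a set `Λ` in `(0, a]` and the upper half for the others, where `Λ` has at most `d L + C`
points in each interval of length `L`, with `d < 4 / 3`.

(3) In particular: let `w ≥ 0` be convex as a function of `log a` with the divergent logarithmic
integral `∫_1^∞ w(a) a⁻² da = ∞`. Then the conjecture is equivalent to
`liminf R(T, a) ≥ val a - K exp (- w(a))` for almost all large `a`.

For `w(a) = c a` this was known (`FarOneSided`); now `w(a) = c a / log a`, `c a / (log a log log a)`
and so on are allowed.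
-/

set_option autoImplicit false

open Filter Topology MeasureTheory

namespace Pool.Agent.Results.MP_f58427_nt.QuasiAnalyticFarBound

/-- multiplicity of `s` as a zero of the Riemann zeta function (order of vanishing at `s`) -/
noncomputable def zmult (s : ℂ) : ℕ := analyticOrderNatAt riemannZeta s

/-- the nontrivial zeros of `ζ` -/
def ZZ : Set ℂ := {s : ℂ | riemannZeta s = 0 ∧ 0 < s.re ∧ s.re < 1}

/-- `N*(T, a)` as in the problem: the number of ordered pairs `(γ, γ')` of ordinates of nontrivial
zeros, counted with multiplicity, with `0 < γ ≤ T` and `0 < γ - γ' ≤ 2πa / log T` -/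
noncomputable def Nstar (T a : ℝ) : ℕ :=
  ∑ᶠ p ∈ {p : ℂ × ℂ | p.1 ∈ ZZ ∧ p.2 ∈ ZZ ∧ 0 < p.1.im ∧ p.1.im ≤ T ∧
    0 < p.1.im - p.2.im ∧ p.1.im - p.2.im ≤ 2 * Real.pi * a / Real.log T}, zmult p.1 * zmult p.2

/-- the number of zeros with ordinate in `(0, T]`, counted with multiplicity, that are off the
critical line or multiple -/
noncomputable def Nbad (T : ℝ) : ℕ :=
  ∑ᶠ s ∈ {s : ℂ | s ∈ ZZ ∧ 0 < s.im ∧ s.im ≤ T ∧ (s.re ≠ 1 / 2 ∨ zmult s ≠ 1)}, zmult s

/-- the value in the conjecture, the integral of `1 - (sin πu / πu)²` over `[0, a]` -/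
noncomputable def val (a : ℝ) : ℝ :=
  ∫ u in (0 : ℝ)..a, (1 - (Real.sin (Real.pi * u) / (Real.pi * u)) ^ 2)

/-- the normalised count `N*(T, a) / ((1 / 2π) T log T)` -/
noncomputable def ratio (T a : ℝ) : ℝ := (Nstar T a : ℝ) / (1 / (2 * Real.pi) * (T * Real.log T))

/-- the asymptotics of Q1, for all `a`, as `T → ∞` along the filter `l` -/
def PairConjecture (l : Filter ℝ) : Prop :=
  ∀ a : ℝ, 0 < a → Tendsto (fun T => ratio T a) l (𝓝 (val a))

/-- almost all zeros are simple and on the critical line, at the heights `T → ∞` along `l` -/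
def AlmostAllGood (l : Filter ℝ) : Prop :=
  Tendsto (fun T => (Nbad T : ℝ) / (1 / (2 * Real.pi) * (T * Real.log T))) l (𝓝 0)

/-- Carleman's condition for the even moments of `E` on `(A, ∞)`:
`∑_{k ≥ 1} (∫_A^∞ a^{2k} E(a) da)^{-1/(2k)} = ∞` -/
def Carleman (A : ℝ) (E : ℝ → ℝ) : Prop :=
  ∑' k : ℕ, (∫⁻ a in Set.Ioi A, ENNReal.ofReal (a ^ (2 * (k + 1)) * E a)) ^
    (-(1 / (2 * ((k : ℝ) + 1)))) = ⊤

/-- the deficit: the least `e ≥ 0` with `liminf (ratio T a) ≥ val a - e` -/
noncomputable def deficit (l : Filter ℝ) (a : ℝ) : ℝ :=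
  sInf {e : ℝ | 0 ≤ e ∧ ∀ ε : ℝ, 0 < ε → ∀ᶠ T in l, val a - e - ε ≤ ratio T a}

/-- one of the two halves of the asymptotics at almost all large distances `a`, up to an error in the
Carleman class: the lower half if the number of points of `Λ` in `(0, a]` is even, and the upper half
if it is odd -/
def OneHalfFar (l : Filter ℝ) (Λ : Set ℝ) : Prop :=
  ∃ (E : ℝ → ℝ) (A : ℝ), Measurable E ∧ (∀ a, 0 ≤ E a) ∧ Carleman A E ∧
    ∀ᵐ a : ℝ, A ≤ a → ∀ ε : ℝ, 0 < ε → ∀ᶠ T in l,
      -E a - ε ≤ (-1) ^ (Λ ∩ Set.Ioc 0 a).ncard * (ratio T a - val a)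

/-- `Λ` has at most `d L + C` points in each interval of length `L` of the half-line `[0, ∞)` -/
def DensityLE (Λ : Set ℝ) (d C : ℝ) : Prop :=
  ∀ x L : ℝ, 0 ≤ x → 0 ≤ L → (Λ ∩ Set.Icc x (x + L)).Finite ∧
    ((Λ ∩ Set.Icc x (x + L)).ncard : ℝ) ≤ d * L + C

/-- the lower half of the asymptotics at almost all large distances, up to the error
`K exp (- w(a))` -/
def LowerFar (l : Filter ℝ) (K : ℝ) (w : ℝ → ℝ) : Prop :=
  ∃ A : ℝ, ∀ᵐ a : ℝ, A ≤ a → ∀ ε : ℝ, 0 < ε → ∀ᶠ T in l,
    val a - K * Real.exp (-(w a)) - ε ≤ ratio T a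

open Pool.Agent Pool.Agent.U667.QA

lemma val_PP (a : ℝ) : val a = N804.PP a := by
  have h := N804.val_win 0 a
  have h0 : N804.PP 0 = 0 := by
    unfold N804.PP
    simp
  rw [h0, sub_zero] at h
  exact h

lemma norm_XX (T : ℝ) : 1 / (2 * Real.pi) * (T * Real.log T) = N804.XX T := by
  unfold N804.XX
  ring

lemma ratio_CF (a : ℝ) : ∀ᶠ T in atTop, ratio T a = N804.CF T a := by
  obtain ⟨T0, hT0, h⟩ := N804.nstar_eq a
  filter_upwards [eventually_ge_atTop T0, eventually_gt_atTop 1] with T hT hT1
  have hX := N804.XX_pos hT1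
  have h1 : (Nstar T a : ℝ) = N804.CF T a * N804.XX T := h T hT
  unfold ratio
  rw [norm_XX, h1]
  field_simp

lemma bad_BF : ∀ᶠ T in atTop, (Nbad T : ℝ) / (1 / (2 * Real.pi) * (T * Real.log T)) =
    N804.BF T := by
  filter_upwards [eventually_gt_atTop 1] with T hT
  have hX := N804.XX_pos hT
  have h1 : (Nbad T : ℝ) = N804.BF T * N804.XX T := N804.nbad_eq hT
  rw [norm_XX, h1]
  field_simp

lemma conj_CF {l : Filter ℝ} (hl : l ≤ atTop) : PairConjecture l ↔
    ∀ a : ℝ, 0 < a → Tendsto (fun T => N804.CF T a) l (𝓝 (N804.PP a)) := by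
  unfold PairConjecture
  refine forall_congr' fun a => forall_congr' fun _ => ?_
  rw [val_PP]
  exact tendsto_congr' (hl (ratio_CF a))

lemma good_BF {l : Filter ℝ} (hl : l ≤ atTop) : AlmostAllGood l ↔ Tendsto N804.BF l (𝓝 0) :=
  tendsto_congr' (hl bad_BF)

/-- the conclusion from a lower bound with an error in the Carleman class -/
lemma conj_of_lower {l : Filter ℝ} [l.IsCountablyGenerated] (hl : l ≤ atTop) {E : ℝ → ℝ} {A R : ℝ}
    (hE : Measurable E) (hE0 : ∀ a, 0 ≤ E a) (hC : Carl A E)
    (h : ∀ᵐ a : ℝ, R ≤ a → ∀ ε : ℝ, 0 < ε → ∀ᶠ T in l, val a - E a - ε ≤ ratio T a) :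
    PairConjecture l ∧ AlmostAllGood l := by
  rw [conj_CF hl, good_BF hl]
  refine lower_halfC hl (A0 := A) (R := R) hE hE0 hC ?_
  filter_upwards [h] with a ha hRa ε hε
  filter_upwards [ha hRa ε hε, hl (ratio_CF a)] with T hT h1
  rw [← h1, ← val_PP]
  exact hT

lemma conj_of_half {l : Filter ℝ} [l.IsCountablyGenerated] (hl : l ≤ atTop) {Λ : Set ℝ} {d C : ℝ}
    (hd : d < 4 / 3) (hΛ : DensityLE Λ d C) (hg : AlmostAllGood l) (h : OneHalfFar l Λ) :
    PairConjecture l := by
  obtain ⟨E, A, hE, hE0, hC, h⟩ := h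
  rw [good_BF hl] at hg
  rw [conj_CF hl]
  refine (pattern_halfC hl hd (Λ := Λ) (C := C) hΛ (A0 := A) (R := A) hE hE0 hC hg ?_).1
  filter_upwards [h] with a ha hRa ε hε
  filter_upwards [ha hRa ε hε, hl (ratio_CF a)] with T hT h1
  rw [← h1, ← val_PP]
  exact hT

/-! ### The deficit -/

/-- the set of admissible errors -/
def Adm (l : Filter ℝ) (a : ℝ) : Set ℝ :=
  {e : ℝ | 0 ≤ e ∧ ∀ ε : ℝ, 0 < ε → ∀ᶠ T in l, val a - e - ε ≤ ratio T a}

lemma adm_bdd (l : Filter ℝ) (a : ℝ) : BddBelow (Adm l a) := ⟨0, fun _ he => he.1⟩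

lemma adm_ne {l : Filter ℝ} (hl : l ≤ atTop) (a : ℝ) : (Adm l a).Nonempty := by
  refine ⟨|val a|, abs_nonneg _, fun ε hε => ?_⟩
  filter_upwards [hl (eventually_gt_atTop 1)] with T hT
  have h1 : 0 ≤ ratio T a := by
    unfold ratio
    rw [norm_XX]
    exact div_nonneg (Nat.cast_nonneg _) (N804.XX_pos hT).le
  have h2 := le_abs_self (val a)
  linarith

lemma deficit_nonneg {l : Filter ℝ} (a : ℝ) : 0 ≤ deficit l a :=
  Real.sInf_nonneg fun _ he => he.1

/-- the infimum is attained -/
lemma deficit_mem {l : Filter ℝ} (hl : l ≤ atTop) (a : ℝ) : ∀ ε : ℝ, 0 < ε →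
    ∀ᶠ T in l, val a - deficit l a - ε ≤ ratio T a := by
  intro ε hε
  obtain ⟨e, he, he2⟩ := exists_lt_of_csInf_lt (adm_ne hl a)
    (show sInf (Adm l a) < deficit l a + ε / 2 by
      show deficit l a < _
      linarith)
  filter_upwards [he.2 (ε / 2) (by positivity)] with T hT
  linarith

lemma ratio_mono {l : Filter ℝ} (hl : l ≤ atTop) {a b : ℝ} (hab : a ≤ b) :
    ∀ᶠ T in l, ratio T a ≤ ratio T b := by
  filter_upwards [hl (ratio_CF a), hl (ratio_CF b), hl (eventually_gt_atTop 1)] with T h1 h2 h3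
  rw [h1, h2]
  exact N804.CF_mono h3 hab

lemma deficit_mono {l : Filter ℝ} (hl : l ≤ atTop) :
    Monotone fun a => val a - deficit l a := by
  intro a b hab
  have hv : val a ≤ val b := by
    rw [val_PP, val_PP]
    exact N804.PP_mono hab
  have h1 : deficit l b ≤ deficit l a + (val b - val a) := by
    refine csInf_le (adm_bdd l b) ⟨by
      have := deficit_nonneg (l := l) a
      linarith, fun ε hε => ?_⟩
    filter_upwards [deficit_mem hl a ε hε, ratio_mono hl hab] with T h2 h3
    linarith
  beta_reduce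
  linarith

lemma deficit_meas {l : Filter ℝ} (hl : l ≤ atTop) : Measurable (deficit l) := by
  have h1 : Measurable val := by
    have : val = N804.PP := funext val_PP
    rw [this]
    exact N804.PP_cont.measurable
  have h2 : deficit l = fun a => val a - (val a - deficit l a) := by
    funext a
    ring
  rw [h2]
  exact h1.sub (deficit_mono hl).measurable

lemma deficit_zero {l : Filter ℝ} (h : PairConjecture l) {a : ℝ} (ha : 0 < a) :
    deficit l a = 0 := by
  refine le_antisymm (csInf_le (adm_bdd l a) ⟨le_rfl, fun ε hε => ?_⟩) (deficit_nonneg a)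
  filter_upwards [(h a ha).eventually (lt_mem_nhds (show val a - ε < val a by linarith))]
    with T hT
  rw [sub_zero]
  exact hT.le

/-- Carleman's condition for a function which vanishes -/
lemma carl_zero {E : ℝ → ℝ} (h : ∀ a, 0 < a → E a = 0) : Carl 0 E := by
  unfold Carl CS
  have h1 : ∀ k : ℕ, ∫⁻ a in Set.Ioi (0 : ℝ), ENNReal.ofReal (a ^ (2 * (k + 1)) * E a) = 0 := by
    intro k
    have : ∫⁻ a in Set.Ioi (0 : ℝ), ENNReal.ofReal (a ^ (2 * (k + 1)) * E a) =
        ∫⁻ a in Set.Ioi (0 : ℝ), 0 := by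
      refine setLIntegral_congr_fun measurableSet_Ioi fun a ha => ?_
      rw [h a ha, mul_zero, ENNReal.ofReal_zero]
    rw [this, lintegral_zero]
  have h2 : ∀ k : ℕ, (∫⁻ a in Set.Ioi (0 : ℝ), ENNReal.ofReal (a ^ (2 * (k + 1)) * E a)) ^
      (-(1 / (2 * ((k : ℝ) + 1)))) = ⊤ := fun k => by
    rw [h1 k]
    refine ENNReal.zero_rpow_of_neg ?_
    have : 0 < 1 / (2 * ((k : ℝ) + 1)) := by positivity
    linarith
  rw [tsum_congr h2]
  exact ENNReal.tsum_const_eq_top_of_ne_zero ENNReal.top_ne_zero

/-- Let `T → ∞` along any countably generated filter `l` (all real numbers, or a sequence of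
heights). (1) Montgomery's conjecture holds along `l` if and only if the moments of the deficit
`e(a) = (val a - liminf (ratio T a))⁺` satisfy Carleman's condition. (2) It is equivalent to the
conjunction of: almost all zeros are simple and on the critical line, and at almost each large
distance one of its two halves holds, up to an error in the Carleman class, where the half may change
at the points of a given set with at most `d L + C` points in each interval of length `L`,
`d < 4 / 3`; for instance the upper half. (3) If `w ≥ 0` is convex as a function of the logarithm and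
`∫_1^∞ w(a) a⁻² da = ∞`, it is equivalent to `liminf (ratio T a) ≥ val a - K exp (- w(a))` for almost
all large `a`. -/
theorem result (l : Filter ℝ) [l.IsCountablyGenerated] (hl : l ≤ atTop) :
    (PairConjecture l ↔ ∃ A : ℝ, Carleman A (deficit l)) ∧
    (∀ (Λ : Set ℝ) (d C : ℝ), d < 4 / 3 → DensityLE Λ d C →
      (PairConjecture l ↔ AlmostAllGood l ∧ OneHalfFar l Λ)) ∧
    (∀ (K : ℝ) (w : ℝ → ℝ), 0 ≤ K → (∀ a, 1 ≤ a → 0 ≤ w a) →
      ConvexOn ℝ (Set.Ici 0) (fun t => w (Real.exp t)) →
      ∫⁻ a in Set.Ioi (1 : ℝ), ENNReal.ofReal (w a / a ^ 2) = ⊤ →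
      (PairConjecture l ↔ LowerFar l K w)) := by
  have hdef : ∀ A : ℝ, Carleman A (deficit l) → PairConjecture l ∧ AlmostAllGood l := fun A hA =>
    conj_of_lower hl (A := A) (R := 0) (deficit_meas hl) deficit_nonneg hA
      (ae_of_all _ fun a _ => deficit_mem hl a)
  have h1 : PairConjecture l → ∃ A : ℝ, Carleman A (deficit l) := fun h =>
    ⟨0, carl_zero fun a ha => deficit_zero h ha⟩
  refine ⟨⟨h1, fun ⟨A, hA⟩ => (hdef A hA).1⟩, fun Λ d C hd hΛ => ⟨fun h => ⟨?_, ?_⟩, fun h =>
    conj_of_half hl hd hΛ h.1 h.2⟩, fun K w hK hw0 hcv hdiv => ⟨fun h => ?_, fun h => ?_⟩⟩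
  · obtain ⟨A, hA⟩ := h1 h
    exact (hdef A hA).2
  · refine ⟨fun _ => 0, 1, measurable_const, fun _ => le_rfl, ?_, ?_⟩
    · unfold Carleman
      have h2 : ∀ k : ℕ, (∫⁻ a in Set.Ioi (1 : ℝ), ENNReal.ofReal (a ^ (2 * (k + 1)) * 0)) ^
          (-(1 / (2 * ((k : ℝ) + 1)))) = ⊤ := fun k => by
        simp only [mul_zero, ENNReal.ofReal_zero, lintegral_zero]
        refine ENNReal.zero_rpow_of_neg ?_
        have : 0 < 1 / (2 * ((k : ℝ) + 1)) := by positivity
        linarith
      rw [tsum_congr h2]
      exact ENNReal.tsum_const_eq_top_of_ne_zero ENNReal.top_ne_zero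
    · refine ae_of_all _ fun a ha ε hε => ?_
      have h2 := h a (by linarith)
      filter_upwards [h2.eventually (lt_mem_nhds (show val a - ε < val a by linarith)),
        h2.eventually (gt_mem_nhds (show val a < val a + ε by linarith))] with T hT1 hT2
      rw [neg_zero, zero_sub]
      rcases neg_one_pow_eq_or ℝ (Λ ∩ Set.Ioc 0 a).ncard with hs | hs
      · rw [hs, one_mul]
        linarith
      · rw [hs]
        linarith
  · refine ⟨1, ae_of_all _ fun a ha ε hε => ?_⟩
    have h2 := h a (by linarith)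
    filter_upwards [h2.eventually (lt_mem_nhds (show val a - ε < val a by linarith))] with T hT
    have h3 : 0 ≤ K * Real.exp (-(w a)) := by positivity
    linarith
  · obtain ⟨A, hA⟩ := h
    -- a measurable error function
    have hcont : ContinuousOn w (Set.Ioi 1) := by
      have hc := hcv.continuousOn_interior
      rw [interior_Ici] at hc
      have h2 : ContinuousOn (fun a : ℝ => (fun t => w (Real.exp t)) (Real.log a)) (Set.Ioi 1) :=
        hc.comp (Real.continuousOn_log.mono fun a ha => by
          have : (1 : ℝ) < a := ha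
          exact Set.mem_compl_singleton_iff.2 (by linarith)) fun a ha => Real.log_pos ha
      refine h2.congr fun a ha => ?_
      have : (1 : ℝ) < a := ha
      beta_reduce
      rw [Real.exp_log (by linarith)]
    set E : ℝ → ℝ := (Set.Ioi (1 : ℝ)).piecewise (fun a => K * Real.exp (-(w a))) 0 with hE
    have hEm : Measurable E := by
      refine ContinuousOn.measurable_piecewise ?_ continuousOn_const measurableSet_Ioi
      exact continuousOn_const.mul (Real.continuous_exp.comp_continuousOn hcont.neg)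
    have hE0 : ∀ a, 0 ≤ E a := fun a => by
      by_cases ha : a ∈ Set.Ioi (1 : ℝ)
      · rw [hE, Set.piecewise_eq_of_mem _ _ _ ha]
        positivity
      · rw [hE, Set.piecewise_eq_of_notMem _ _ _ ha]
        exact le_rfl
    have hEC : Carl 1 E := by
      have h2 := carl_of_log hK hw0 hcv hdiv
      unfold Carl at h2 ⊢
      have h3 : (fun k : ℕ => ∫⁻ a in Set.Ioi (1 : ℝ), ENNReal.ofReal (a ^ (2 * (k + 1)) * E a)) =
          fun k : ℕ => ∫⁻ a in Set.Ioi (1 : ℝ),
            ENNReal.ofReal (a ^ (2 * (k + 1)) * (K * Real.exp (-(w a)))) := by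
        funext k
        refine setLIntegral_congr_fun measurableSet_Ioi fun a ha => ?_
        rw [hE, Set.piecewise_eq_of_mem _ _ _ ha]
      rw [h3]
      exact h2
    refine (conj_of_lower hl (A := 1) (R := max A 2) hEm hE0 hEC ?_).1
    filter_upwards [hA] with a ha hRa ε hε
    have h2 : (1 : ℝ) < a := by
      have := (le_max_right A 2).trans hRa
      linarith
    rw [hE, Set.piecewise_eq_of_mem _ _ _ (show a ∈ Set.Ioi (1 : ℝ) from h2)]
    exact ha ((le_max_left _ _).trans hRa) ε hε

end Pool.Agent.Results.MP_f58427_nt.QuasiAnalyticFarBound
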