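import Pool.Agent.U761.SZ.WLD
import Pool.Agent.U761.SZ.ZC2

set_option autoImplicit false

/-!
# Excess and defect of zeros in windows: large deviations on all scales, unconditionally

For `h > 0` let `N(t, h)` be the number of the nontrivial zeros of zeta with ordinate in `(t, t + h]`, with multiplicity; its mean value
for `T < t ≤ 2T` is about `(h / 2π) log T`. Let `D(t, h) = N(t, h) - (h / 2π) log T`. Put
`X(t, h) = log |ζ(1/2 + i(t + h))| - log |ζ(1/2 + it)| + i π D(t, h)`.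

Without any hypothesis there are constants `c, K, C, C₀ > 0` such that for all large `T`, for all windows `C₀ / log T ≤ h ≤ 1 / log log T`
and for ALL complex `z` with `|z| ≤ c √(h log T)` the set of the `t ∈ (T, 2T]` with `|X(t, h) - z| ≤ K √(log (2 + h log T))` has measure at
least `T exp (-C (1 + |z|² / log (2 + h log T / (1 + |z|²))))`.

In particular (`z = ± i c √(h log T)`) on every scale from a large multiple of the mean distance `2π / log T` of the zeros up to
`1 / log log T` there are windows with an excess, and windows with a defect, of order `√(h log T)`; the measure of the `t` with such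
windows is at least `T exp(-C h log T)`, a positive proportion if `h log T` is bounded.

Under the Riemann hypothesis the second statement without the measure is a theorem of Tsang (1986), who had unconditionally only
`(h log T)^(1/3)`.

The proof: relative to every Dirichlet polynomial of length `T^θ` the complex function `log ζ(1/2 + it)` is within `O(1)`, in all moments,
of the logarithm of the Euler product over the primes `p ≤ T^δ` (`Pool.Agent.U761.SZ.THS`, for the argument by an identity of Littlewood's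
type with a smooth weight; no hypothesis on the zeros), also at the shifted points `t + h`. Then resonators with the coefficients
`∏ μ conj(z) (p^(-ih) - 1) / |z|` at squarefree `n` with prime factors in a set of primes near `exp(1/h)` which depends on `|z|`; and the
Riemann-von Mangoldt formula for `N(t, h)` with error `O(h)`.
-/

namespace Pool.Agent.Results.MP_f58427_nt.ZeroCountDeviations

open Filter Topology MeasureTheory Complex

noncomputable section

/-- the number of the zeros `β + iγ` of zeta with `0 < β < 1` and `t < γ ≤ t + h`, with multiplicity -/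
def N (t h : ℝ) : ℕ :=
  ∑ᶠ s ∈ {s : ℂ | riemannZeta s = 0 ∧ 0 < s.re ∧ s.re < 1 ∧ t < s.im ∧ s.im ≤ t + h}, analyticOrderNatAt riemannZeta s

/-- the excess of the number of zeros in the window over its mean value -/
def D (T t h : ℝ) : ℝ := N t h - h / (2 * Real.pi) * Real.log T

/-- `X(t, h) = log |ζ(1/2 + i(t + h))| - log |ζ(1/2 + it)| + i π D(t, h)` -/
def X (T t h : ℝ) : ℂ :=
  ((Real.log ‖riemannZeta (1 / 2 + (t + h : ℝ) * I)‖ - Real.log ‖riemannZeta (1 / 2 + t * I)‖ : ℝ) : ℂ) + (Real.pi * D T t h : ℝ) * I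

theorem N_eq (t h : ℝ) : N t h = Pool.Agent.U761.SZ.Nz t (t + h) := rfl

theorem good_ae (h : ℝ) : ∀ᵐ t : ℝ, (t ≠ 0 ∧ Pool.Agent.U761.SZ.NoOrd t ∧ Pool.Agent.U761.SZ.piS t = Pool.Agent.U761.SZ.aS t) ∧
    (Pool.Agent.U761.SZ.NoOrd (t + h) ∧ Pool.Agent.U761.SZ.piS (t + h) = Pool.Agent.U761.SZ.aS (t + h)) := by
  have h1 : ∀ᵐ t : ℝ, t ≠ 0 ∧ Pool.Agent.U761.SZ.NoOrd t ∧ Pool.Agent.U761.SZ.piS t = Pool.Agent.U761.SZ.aS t := by
    filter_upwards [Pool.Agent.U761.SZ.ae_piS, Pool.Agent.U761.SZ.ae_not_ord] with t h1 h2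
    exact ⟨h2.1, h2.2, h1⟩
  have h2 := (measurePreserving_add_right (volume : Measure ℝ) h).quasiMeasurePreserving.ae h1
  filter_upwards [h1, h2] with t a1 a2
  exact ⟨a1, a2.2⟩

/-- the difference between the two complex increments is bounded -/
theorem X_near : ∃ C : ℝ, 0 < C ∧ ∀ T t h : ℝ, 10 ≤ T → T < t → t ≤ 2 * T → 0 < h → h ≤ 1 →
    Pool.Agent.U761.SZ.NoOrd t → Pool.Agent.U761.SZ.piS t = Pool.Agent.U761.SZ.aS t →
    Pool.Agent.U761.SZ.NoOrd (t + h) → Pool.Agent.U761.SZ.piS (t + h) = Pool.Agent.U761.SZ.aS (t + h) →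
    ‖X T t h - (Pool.Agent.U761.SZ.Lz (t + h) - Pool.Agent.U761.SZ.Lz t)‖ ≤ C * h := by
  obtain ⟨C, hC, hz⟩ := Pool.Agent.U761.SZ.zcount
  refine ⟨C + 1, by linarith, fun T t h hT hTt htT hh hh1 n1 p1 n2 p2 => ?_⟩
  have h1 := hz t (t + h) (by linarith) (by linarith) (by linarith) n1 n2
  have e : t + h - t = h := by ring
  rw [e, p1, p2] at h1
  have hT0 : 0 < T := by linarith
  have hl1 : Real.log T ≤ Real.log t := Real.log_le_log hT0 hTt.le
  have hl2 : Real.log t ≤ Real.log T + Real.log 2 := by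
    rw [← Real.log_mul hT0.ne' (by norm_num)]
    refine Real.log_le_log (by linarith) ?_
    linarith
  have hl3 := Real.log_two_lt_d9
  have hX : X T t h - (Pool.Agent.U761.SZ.Lz (t + h) - Pool.Agent.U761.SZ.Lz t) =
      ((Real.pi * D T t h - (Pool.Agent.U761.SZ.aS (t + h) - Pool.Agent.U761.SZ.aS t) : ℝ) : ℂ) * I := by
    unfold X Pool.Agent.U761.SZ.Lz Pool.Agent.Q97.UM.zt
    apply Complex.ext <;> simp
  rw [hX, norm_mul, norm_I, mul_one, norm_real, Real.norm_eq_abs]
  have hpi := Real.pi_pos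
  have e2 : Real.pi * D T t h - (Pool.Agent.U761.SZ.aS (t + h) - Pool.Agent.U761.SZ.aS t) =
      (Real.pi * (Pool.Agent.U761.SZ.Nz t (t + h) : ℝ) - h / 2 * Real.log t - (Pool.Agent.U761.SZ.aS (t + h) - Pool.Agent.U761.SZ.aS t)) +
        h / 2 * (Real.log t - Real.log T) := by
    unfold D
    rw [N_eq]
    field_simp
    ring
  rw [e2]
  refine (abs_add_le _ _).trans ?_
  have h3 : |h / 2 * (Real.log t - Real.log T)| ≤ h := by
    rw [abs_of_nonneg (mul_nonneg (by linarith) (by linarith))]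
    nlinarith
  linarith

/-- **Large deviations of the number of zeros in windows.** -/
theorem result :
    (∃ c K C C₀ T₀ : ℝ, 0 < c ∧ 0 < K ∧ 0 < C ∧ 0 < C₀ ∧ ∀ T h : ℝ, T₀ ≤ T → C₀ / Real.log T ≤ h → h ≤ 1 / Real.log (Real.log T) →
      ∀ z : ℂ, ‖z‖ ≤ c * Real.sqrt (h * Real.log T) →
      T * Real.exp (-(C * (1 + ‖z‖ ^ 2 / Real.log (2 + h * Real.log T / (1 + ‖z‖ ^ 2))))) ≤
        volume.real {t : ℝ | T < t ∧ t ≤ 2 * T ∧ riemannZeta (1 / 2 + t * I) ≠ 0 ∧ riemannZeta (1 / 2 + (t + h : ℝ) * I) ≠ 0 ∧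
          ‖X T t h - z‖ ≤ K * Real.sqrt (Real.log (2 + h * Real.log T))}) ∧
    (∃ c C C₀ T₀ : ℝ, 0 < c ∧ 0 < C ∧ 0 < C₀ ∧ ∀ T h : ℝ, T₀ ≤ T → C₀ / Real.log T ≤ h → h ≤ 1 / Real.log (Real.log T) →
      T * Real.exp (-(C * (h * Real.log T))) ≤ volume.real {t : ℝ | T < t ∧ t ≤ 2 * T ∧ c * Real.sqrt (h * Real.log T) ≤ D T t h} ∧
      T * Real.exp (-(C * (h * Real.log T))) ≤ volume.real {t : ℝ | T < t ∧ t ≤ 2 * T ∧ D T t h ≤ -(c * Real.sqrt (h * Real.log T))}) := by
  have part1 : ∃ c K C C₀ T₀ : ℝ, 0 < c ∧ 0 < K ∧ 0 < C ∧ 0 < C₀ ∧ ∀ T h : ℝ, T₀ ≤ T → C₀ / Real.log T ≤ h →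
      h ≤ 1 / Real.log (Real.log T) → ∀ z : ℂ, ‖z‖ ≤ c * Real.sqrt (h * Real.log T) →
      T * Real.exp (-(C * (1 + ‖z‖ ^ 2 / Real.log (2 + h * Real.log T / (1 + ‖z‖ ^ 2))))) ≤
        volume.real {t : ℝ | T < t ∧ t ≤ 2 * T ∧ riemannZeta (1 / 2 + t * I) ≠ 0 ∧ riemannZeta (1 / 2 + (t + h : ℝ) * I) ≠ 0 ∧
          ‖X T t h - z‖ ≤ K * Real.sqrt (Real.log (2 + h * Real.log T))} := by
    obtain ⟨c, K, C, C₀, hc, hK, hC, hC₀, h0⟩ := Pool.Agent.U761.SZ.ldw
    obtain ⟨C₁, hC₁, hnear⟩ := X_near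
    have hll : ∀ᶠ T : ℝ in atTop, 1 ≤ Real.log (Real.log T) :=
      (Real.tendsto_log_atTop.comp Real.tendsto_log_atTop).eventually_ge_atTop 1
    obtain ⟨T₀, hT₀⟩ := Filter.eventually_atTop.1 (h0.and (hll.and (eventually_ge_atTop 10)))
    refine ⟨c, Real.sqrt K + 2 * C₁, C, C₀, T₀, hc, by positivity, hC, hC₀, fun T h hT hlo hhi z hz => ?_⟩
    obtain ⟨a1, a2, a3⟩ := hT₀ T hT
    have hL0 : 0 < Real.log T := Real.log_pos (by linarith)
    have hh0 : 0 < h := lt_of_lt_of_le (by positivity) hlo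
    have hh1 : h ≤ 1 := hhi.trans (by rw [div_le_one (by linarith)]; exact a2)
    refine (a1 h hlo hhi z hz).trans ?_
    rw [measureReal_def]
    refine ENNReal.toReal_mono ?_ ?_
    · refine ne_of_lt (lt_of_le_of_lt (measure_mono (t := Set.Icc T (2 * T)) ?_) (by simp))
      rintro t ⟨h1, h2, -⟩
      exact ⟨h1.le, h2⟩
    · refine measure_mono_ae ?_
      filter_upwards [good_ae h] with t ht hS
      obtain ⟨⟨g1, g2, g3⟩, g4, g5⟩ := ht
      obtain ⟨s1, s2, s3⟩ := hS
      have hnz : ∀ u : ℝ, Pool.Agent.U761.SZ.NoOrd u → riemannZeta (1 / 2 + u * I) ≠ 0 := by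
        intro u hu
        have h1 := hu (1 / 2)
        have e : (((1 / 2 : ℝ) : ℂ) + u * I) = 1 / 2 + u * I := by push_cast; ring
        rw [e] at h1
        exact h1
      refine ⟨s1, s2, hnz t g2, hnz (t + h) g4, ?_⟩
      have h1 := hnear T t h a3 s1 s2 hh0 hh1 g2 g3 g4 g5
      have hlog : 1 / 2 ≤ Real.log (2 + h * Real.log T) := by
        have h2 := Real.log_two_gt_d9
        have h3 : Real.log 2 ≤ Real.log (2 + h * Real.log T) := Real.log_le_log (by norm_num) (by nlinarith)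
        linarith
      have hsq : 1 / 2 ≤ Real.sqrt (Real.log (2 + h * Real.log T)) := by
        apply Real.le_sqrt_of_sq_le
        linarith
      have h2 : ‖(Pool.Agent.U761.SZ.Lz (t + h) - Pool.Agent.U761.SZ.Lz t) - z‖ ≤ Real.sqrt K * Real.sqrt (Real.log (2 + h * Real.log T)) := by
        rw [← Real.sqrt_mul hK.le]
        exact Real.le_sqrt_of_sq_le s3
      calc ‖X T t h - z‖ = ‖(X T t h - (Pool.Agent.U761.SZ.Lz (t + h) - Pool.Agent.U761.SZ.Lz t)) +
            ((Pool.Agent.U761.SZ.Lz (t + h) - Pool.Agent.U761.SZ.Lz t) - z)‖ := by congr 1; ring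
        _ ≤ C₁ * h + Real.sqrt K * Real.sqrt (Real.log (2 + h * Real.log T)) := (norm_add_le _ _).trans (add_le_add h1 h2)
        _ ≤ _ := by nlinarith
  refine ⟨part1, ?_⟩
  obtain ⟨c, K, C, C₀, T₀, hc, hK, hC, hC₀, h0⟩ := part1
  have hpi := Real.pi_pos
  -- a threshold above which the error is at most half of the main term
  obtain ⟨H₀, hH₀1, hH₀⟩ : ∃ H₀ : ℝ, 1 ≤ H₀ ∧ ∀ H : ℝ, H₀ ≤ H → K * Real.sqrt (Real.log (2 + H)) ≤ c / 2 * Real.sqrt H := by
    have h1 : Tendsto (fun H : ℝ => Real.log (2 + H) / (2 + H)) atTop (𝓝 0) := by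
      have h2 := (Real.isLittleO_log_id_atTop.tendsto_div_nhds_zero).comp (tendsto_atTop_add_const_left atTop (2 : ℝ) tendsto_id)
      exact h2
    have h3 := h1.eventually_lt_const (show (0 : ℝ) < (c / 2) ^ 2 / (3 * K ^ 2) by positivity)
    obtain ⟨H₁, hH₁⟩ := Filter.eventually_atTop.1 (h3.and (eventually_ge_atTop 1))
    refine ⟨max H₁ 1, le_max_right _ _, fun H hH => ?_⟩
    obtain ⟨b1, b2⟩ := hH₁ H ((le_max_left _ _).trans hH)
    rw [div_lt_iff₀ (by linarith)] at b1
    have e1 : K * Real.sqrt (Real.log (2 + H)) = Real.sqrt (K ^ 2 * Real.log (2 + H)) := by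
      rw [Real.sqrt_mul (by positivity), Real.sqrt_sq hK.le]
    have e2 : c / 2 * Real.sqrt H = Real.sqrt ((c / 2) ^ 2 * H) := by
      rw [Real.sqrt_mul (by positivity), Real.sqrt_sq (by positivity)]
    rw [e1, e2]
    refine Real.sqrt_le_sqrt ?_
    calc K ^ 2 * Real.log (2 + H) ≤ K ^ 2 * ((c / 2) ^ 2 / (3 * K ^ 2) * (2 + H)) := by gcongr
      _ = (c / 2) ^ 2 * ((2 + H) / 3) := by field_simp
      _ ≤ (c / 2) ^ 2 * H := by
        refine mul_le_mul_of_nonneg_left ?_ (by positivity)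
        linarith
  obtain ⟨T₁, hT₁⟩ := Filter.eventually_atTop.1 (((Real.tendsto_log_atTop.comp Real.tendsto_log_atTop).eventually_ge_atTop 1).and
    (eventually_ge_atTop 16))
  refine ⟨c / 2 / Real.pi, C * (1 + c ^ 2 / Real.log 2), max C₀ H₀, max T₀ T₁, by positivity, ?_, by positivity,
    fun T h hT hlo hhi => ?_⟩
  · have := Real.log_pos one_lt_two
    positivity
  obtain ⟨a1, a2⟩ := hT₁ T ((le_max_right _ _).trans hT)
  have hT0 : 0 < T := by linarith
  have hL0 : 0 < Real.log T := Real.log_pos (by linarith)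
  have hlo2 : C₀ / Real.log T ≤ h := le_trans (by gcongr; exact le_max_left _ _) hlo
  have hHH : H₀ ≤ h * Real.log T := by
    rw [div_le_iff₀ hL0] at hlo
    exact (le_max_right _ _).trans hlo
  obtain ⟨H, hH⟩ : ∃ H : ℝ, H = h * Real.log T := ⟨_, rfl⟩
  have hH1 : 1 ≤ H := by rw [hH]; exact hH₀1.trans hHH
  have hl2 := Real.log_pos one_lt_two
  have key : ∀ σ : ℝ, |σ| = 1 → T * Real.exp (-(C * (1 + c ^ 2 / Real.log 2) * (h * Real.log T))) ≤
      volume.real {t : ℝ | T < t ∧ t ≤ 2 * T ∧ |Real.pi * D T t h - σ * (c * Real.sqrt (h * Real.log T))| ≤ c / 2 * Real.sqrt (h * Real.log T)} := by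
    intro σ hσ
    have hn : ‖((σ * (c * Real.sqrt (h * Real.log T)) : ℝ) * I : ℂ)‖ = c * Real.sqrt (h * Real.log T) := by
      rw [norm_mul, norm_I, mul_one, norm_real, Real.norm_eq_abs, abs_mul, hσ, one_mul,
        abs_of_nonneg (mul_nonneg hc.le (Real.sqrt_nonneg _))]
    have h2 := h0 T h ((le_max_left _ _).trans hT) hlo2 hhi ((σ * (c * Real.sqrt (h * Real.log T)) : ℝ) * I) hn.le
    rw [hn] at h2
    refine le_trans ?_ (h2.trans ?_)
    · refine mul_le_mul_of_nonneg_left (Real.exp_le_exp.2 ?_) hT0.le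
      rw [mul_pow, Real.sq_sqrt (by rw [← hH]; linarith), ← hH]
      have h3 : c ^ 2 * H / Real.log (2 + H / (1 + c ^ 2 * H)) ≤ c ^ 2 * H / Real.log 2 := by
        refine div_le_div_of_nonneg_left (by positivity) hl2 ?_
        refine Real.log_le_log (by norm_num) ?_
        have : 0 ≤ H / (1 + c ^ 2 * H) := by positivity
        linarith
      have h4 : 1 + c ^ 2 * H / Real.log 2 ≤ (1 + c ^ 2 / Real.log 2) * H := by
        have e : c ^ 2 * H / Real.log 2 = c ^ 2 / Real.log 2 * H := by ring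
        rw [e]
        nlinarith
      have h5 : C * (1 + c ^ 2 * H / Real.log (2 + H / (1 + c ^ 2 * H))) ≤ C * ((1 + c ^ 2 / Real.log 2) * H) :=
        mul_le_mul_of_nonneg_left (by linarith) hC.le
      have e6 : C * (1 + c ^ 2 / Real.log 2) * H = C * ((1 + c ^ 2 / Real.log 2) * H) := by ring
      rw [e6]
      linarith
    · refine measureReal_mono ?_ ?_
      · rintro t ⟨s1, s2, s3, s4, s5⟩
        refine ⟨s1, s2, ?_⟩
        have h5 : Real.pi * D T t h - σ * (c * Real.sqrt (h * Real.log T)) =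
            (X T t h - ((σ * (c * Real.sqrt (h * Real.log T)) : ℝ) : ℂ) * I).im := by
          unfold X
          simp
        rw [h5]
        refine (Complex.abs_im_le_norm _).trans (s5.trans ?_)
        exact hH₀ _ hHH
      · refine ne_of_lt (lt_of_le_of_lt (measure_mono (t := Set.Icc T (2 * T)) ?_) (by simp))
        rintro t ⟨h1, h2, -⟩
        exact ⟨h1.le, h2⟩
  have fin : ∀ P : ℝ → Prop, volume {t : ℝ | T < t ∧ t ≤ 2 * T ∧ P t} ≠ ⊤ := by
    intro P
    refine ne_of_lt (lt_of_le_of_lt (measure_mono (t := Set.Icc T (2 * T)) ?_) (by simp))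
    rintro t ⟨h1, h2, -⟩
    exact ⟨h1.le, h2⟩
  constructor
  · refine (key 1 (by simp)).trans (measureReal_mono ?_ (fin _))
    rintro t ⟨s1, s2, s3⟩
    refine ⟨s1, s2, ?_⟩
    have h6 := (abs_le.1 s3).1
    have h7 : c / 2 * Real.sqrt (h * Real.log T) ≤ Real.pi * D T t h := by linarith
    calc c / 2 / Real.pi * Real.sqrt (h * Real.log T) = c / 2 * Real.sqrt (h * Real.log T) / Real.pi := by ring
      _ ≤ Real.pi * D T t h / Real.pi := by gcongr
      _ = D T t h := by field_simp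
  · refine (key (-1) (by simp)).trans (measureReal_mono ?_ (fin _))
    rintro t ⟨s1, s2, s3⟩
    refine ⟨s1, s2, ?_⟩
    have h6 := (abs_le.1 s3).2
    have h7 : c / 2 * Real.sqrt (h * Real.log T) ≤ -(Real.pi * D T t h) := by linarith
    have h8 : c / 2 / Real.pi * Real.sqrt (h * Real.log T) ≤ -D T t h := by
      calc c / 2 / Real.pi * Real.sqrt (h * Real.log T) = c / 2 * Real.sqrt (h * Real.log T) / Real.pi := by ring
        _ ≤ -(Real.pi * D T t h) / Real.pi := by gcongr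
        _ = -D T t h := by field_simp
    show D T t h ≤ -(c / 2 / Real.pi * Real.sqrt (h * Real.log T))
    linarith

end

end Pool.Agent.Results.MP_f58427_nt.ZeroCountDeviations
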